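import Pool.Agent.EQC.Stmts
import Pool.Agent.Helper51_Equitable.Nice

/-!
# Squad EQC, FIN: the final assembly
-/

open SimpleGraph Finset
open Pool.Agent.Helper51_Equitable (edges nbrs vertexSum nb IsEquitableProper Nice)

namespace Pool.Agent.EQC.H61

variable {V : Type} [Fintype V]

theorem cnt_congr {α : Type} [Fintype α] {p q : α → Prop} (h : ∀ a, p a ↔ q a) :
    cnt p = cnt q := by
  have : p = q := funext fun a => propext (h a)
  rw [this]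

theorem cnt_pos {α : Type} [Fintype α] {p : α → Prop} : (∃ a, p a) → 1 ≤ cnt p := by
  classical
  rintro ⟨a, ha⟩
  unfold cnt
  exact Finset.card_pos.2 ⟨a, by simp [ha]⟩

omit [Fintype V] in
theorem sg_cases (e e' : Sym2 V) (v : V) : sg e e' v = -1 ∨ sg e e' v = 0 ∨ sg e e' v = 1 := by
  unfold sg
  split_ifs <;> simp

omit [Fintype V] in
theorem sg_one (e e' : Sym2 V) (v : V) : sg e e' v = 1 ↔ v ∈ e ∧ v ∉ e' := by
  unfold sg
  split_ifs with h1 h2 h2 <;> simp [h1, h2]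

omit [Fintype V] in
theorem sg_neg (e e' : Sym2 V) (v : V) : sg e e' v = -1 ↔ v ∈ e' ∧ v ∉ e := by
  unfold sg
  split_ifs with h1 h2 h2 <;> simp [h1, h2]

theorem comp_symm {G : SimpleGraph V} {D : ℕ} {u v : V} (h : Comp G D u v) : Comp G D v u :=
  ⟨h.1.symm, h.2.2.1, h.2.1, h.2.2.2.2, h.2.2.2.1⟩

/-- the flips for a typed family of items -/
theorem flips (hK : KkpStmt) {G : SimpleGraph V} {c D : ℕ} {ι : Type} [Fintype ι]
    (hc : 1 ≤ c) (T : Typ G c D ι) (base : V → ℤ) :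
    ∃ F : Finset ι, ∀ u v, Comp G D u v →
      base u + ∑ i ∈ F, wt c (T.ty i) * sg (T.e0 i) (T.e1 i) u ≠
        base v + ∑ i ∈ F, wt c (T.ty i) * sg (T.e0 i) (T.e1 i) v := by
  have hq : ∀ v, (∃ w, Comp G D v w) → Hi G D v ∧ 1 ≤ qn G D v := by
    rintro v ⟨w, hw⟩
    exact ⟨hw.2.1, cnt_pos ⟨w, hw⟩⟩
  apply hK V ι c (Comp G D) base T.rk T.r0 T.s0 T.fr T.ty (fun i v => sg (T.e0 i) (T.e1 i) v) hc
    (fun u v h => comp_symm h) (fun u h => G.loopless.irrefl u h.1) T.rk_inj T.rk_first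
    (fun i u => sg_cases _ _ _)
  · intro i
    exact (sg_one _ _ _).2 ⟨(T.fr_mem i).1, (T.fr_mem i).2.1⟩
  · intro i
    exact (T.fr_mem i).2.2
  · intro i h
    exact T.r0_e0 i ((sg_one _ _ _).1 h).1
  · intro i h
    exact T.r0_e1 i ((sg_neg _ _ _).1 h).1
  · intro u hu hw
    obtain ⟨h1, h2⟩ := hq u hw
    constructor
    · refine le_of_eq_of_le (cnt_congr fun i => ?_) (T.plus u h1 hu)
      rw [sg_one]
    · refine le_of_eq_of_le (cnt_congr fun i => ?_) (T.minus u h1 hu)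
      rw [sg_neg]
  · refine le_trans (le_of_eq (cnt_congr fun i => ?_)) T.r0_A
    rw [sg_neg]
    constructor
    · rintro ⟨h1, h2, _⟩
      exact ⟨h1, h2⟩
    · rintro ⟨h1, h2⟩
      exact ⟨h1, h2, T.r0_e0 i⟩
  · refine le_trans (le_of_eq (cnt_congr fun i => ?_)) T.r0_B
    rw [sg_neg]
    constructor
    · rintro ⟨h1, h2, _⟩
      exact ⟨h1, h2⟩
    · rintro ⟨h1, h2⟩
      exact ⟨h1, h2, T.r0_e0 i⟩
  · intro v hv hw
    obtain ⟨h1, h2⟩ := hq v hw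
    refine ⟨T.cA v h1 hv h2, fun hs => T.cB v h1 hv h2 hs, ?_⟩
    by_cases hs : v = T.s0
    · subst hs
      exact T.cS h1 hv h2
    · have := T.cB v h1 hv h2 hs
      have e : cnt (fun w => Comp G D v w) = qn G D v := rfl
      rw [e]
      omega

theorem big (hStr : StrStmt) (hTyp : TypStmt) (hK : KkpStmt) (hF : FlpStmt) (hKap : KapStmt)
    (hS : SumStmt) (hP : PrpStmt) (hE : EquStmt) (c D q B K : ℕ) (hBig : Big c D)
    (hq : q = 2 ^ (2 * (8 * D ^ 2))) (hB : D * (4 * c + 3) < B)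
    (hKK : (D + 1) * (B ^ q + 4 * c + 3) ≤ K)
    (G : SimpleGraph V) (hG : Nice G) (hm : 100 * (q + D ^ 2 + 1) ≤ (edges G).card) :
    ∃ ℓ : Sym2 V → ℕ, IsEquitableProper G (K + B ^ q + 4 * c + 2) ℓ := by
  classical
  have hc : 1 ≤ c := le_trans (by norm_num) hBig.1
  have hD : 1 ≤ D := by
    have := hBig.2
    omega
  have hne : (edges G).Nonempty := by
    rw [← Finset.card_pos]
    omega
  obtain ⟨e0, -⟩ := hne
  have hV : Nonempty V := ⟨e0.out.1⟩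
  obtain ⟨ι, hι, ⟨S⟩⟩ := hStr V G c D hBig
  obtain ⟨κ', hκ', ⟨T⟩⟩ := hTyp V G c D ι hBig S
  obtain ⟨κ, φ, h1, h2, h3, h4, h5⟩ := hKap V G D κ' T.prs q hq T.total hm
  obtain ⟨F, hFl⟩ := flips hK hc T
    (fun v => ∑ e ∈ at' G v, ((K + B ^ (κ e + 1) + fv c (φ e) : ℕ) : ℤ))
  obtain ⟨φ', g1, g2⟩ := hF V G c D κ' T.prs κ φ F h2 h3
  have hval : ∀ v, ((vertexSum G (fun e => K + B ^ (κ e + 1) + fv c (φ' e)) v : ℕ) : ℤ) =
      ∑ e ∈ at' G v, ((K + B ^ (κ e + 1) + fv c (φ e) : ℕ) : ℤ) +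
        ∑ i ∈ F, wt c (T.ty i) * sg (T.e0 i) (T.e1 i) v := by
    intro v
    rw [(hS V G _ v).1]
    push_cast
    have := g2 v
    rw [Finset.sum_add_distrib, Finset.sum_add_distrib (f := fun e => (K : ℤ) + B ^ (κ e + 1)),
      this, add_assoc]
    rfl
  refine ⟨fun e => K + B ^ (κ e + 1) + fv c (φ' e), ?_⟩
  have hcomp : ∀ u v, Comp G D u v →
      vertexSum G (fun e => K + B ^ (κ e + 1) + fv c (φ' e)) u ≠
        vertexSum G (fun e => K + B ^ (κ e + 1) + fv c (φ' e)) v := by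
    intro u v huv heq
    apply hFl u v huv
    rw [← hval u, ← hval v, heq]
  have hpr := hP V G c D q B K κ φ' hG hD hB hKK h1 h5 hcomp
  have hB' : 4 * c + 3 < B := lt_of_le_of_lt (Nat.le_mul_of_pos_left _ hD) hB
  obtain ⟨k1, k2⟩ := hE V G c q B K ((edges G).card / (4 * q)) κ φ' hc hB' h1
    (fun k hk f => by rw [g1]; exact h4 k hk f)
  exact ⟨k1, hpr, k2⟩

/-- **FIN** -/
theorem fin (hStr : StrStmt) (hTyp : TypStmt) (hK : KkpStmt) (hF : FlpStmt) (hKap : KapStmt)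
    (hS : SumStmt) (hP : PrpStmt) (hE : EquStmt) (hSml : SmlStmt) : FinStmt := by
  classical
  obtain ⟨c, hc⟩ : ∃ c : ℕ, 7000 ≤ c := ⟨7000, le_rfl⟩
  obtain ⟨D, hD⟩ : ∃ D : ℕ, 2000 * (4 * c + 11) + 6 ≤ D := ⟨_, le_rfl⟩
  obtain ⟨q, hq⟩ : ∃ q : ℕ, q = 2 ^ (2 * (8 * D ^ 2)) := ⟨_, rfl⟩
  obtain ⟨B, hB⟩ : ∃ B : ℕ, D * (4 * c + 3) < B := ⟨_, Nat.lt_succ_self _⟩
  obtain ⟨K, hKK⟩ : ∃ K : ℕ, (D + 1) * (B ^ q + 4 * c + 3) ≤ K := ⟨_, le_rfl⟩
  refine ⟨max (K + B ^ q + 4 * c + 2) (2 ^ (100 * (q + D ^ 2 + 1))), ?_⟩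
  intro V _ G hG
  rcases Nat.lt_or_ge (edges G).card (100 * (q + D ^ 2 + 1)) with hm | hm
  · obtain ⟨ℓ, h⟩ := hSml V G hG
    refine ⟨ℓ, h.mono ?_⟩
    exact le_trans (Nat.pow_le_pow_right (by norm_num) hm.le) (le_max_right _ _)
  · obtain ⟨ℓ, h⟩ := big hStr hTyp hK hF hKap hS hP hE c D q B K ⟨hc, hD⟩ hq hB hKK G hG hm
    exact ⟨ℓ, h.mono (le_max_left _ _)⟩

end Pool.Agent.EQC.H61
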